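import Pool.Agent.H76.SF.Stm

/-! Crew SF, part LOW (helper2). -/

set_option autoImplicit false

namespace H2.SF

open Finset Classical H76.SF Pool.Agent.Results.MP_705b7e_co.StarForestBounds

def Red (n u v : ℕ) : Prop :=
  (u ≤ n ∧ n < v) ∨ (v ≤ n ∧ n < u) ∨ (u ≠ v ∧ u ≤ n ∧ v ≤ n ∧ u / 2 = v / 2)

theorem t_LOW : S_LOW := by
  intro s hodd h2 h21 hA
  set n := s 0 with hn
  let R : SimpleGraph (Fin (2 * n + 1)) :=
    { Adj := fun u v => Red n u v
      symm := ⟨fun u v h => by
        rcases h with h | h | h
        · exact Or.inr (Or.inl h)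
        · exact Or.inl h
        · exact Or.inr (Or.inr ⟨h.1.symm, h.2.2.1, h.2.1, h.2.2.2.symm⟩)⟩
      loopless := ⟨fun u h => by
        rcases h with h | h | h
        · omega
        · omega
        · exact h.1 rfl⟩ }
  let i0 : Fin 3 := 0
  let i1 : Fin 3 := 1
  let i2 : Fin 3 := 2
  have hi0 : s ((i0 : Fin 3) : ℕ) = n := rfl
  have hi1 : 2 ≤ s ((i1 : Fin 3) : ℕ) := h2.trans h21
  have hi2 : 2 ≤ s ((i2 : Fin 3) : ℕ) := h2
  set U : Finset (Fin (2 * n + 1)) := univ.filter (fun v => n < (v : ℕ)) with hU
  set D : Finset (Fin (2 * n + 1)) := univ.filter (fun v => (v : ℕ) ≤ n) with hD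
  have hUc : U.card ≤ n := by
    have : U.card ≤ (range n).card := by
      refine Finset.card_le_card_of_injOn (fun v => (v : ℕ) - (n + 1)) ?_ ?_
      · intro v hv
        have hv' : n < (v : ℕ) := by simpa [hU] using hv
        have := v.2
        simp only [coe_range, Set.mem_Iio]
        omega
      · intro v hv w hw hvw
        have hv' : n < (v : ℕ) := by simpa [hU] using hv
        have hw' : n < (w : ℕ) := by simpa [hU] using hw
        simp only at hvw
        exact Fin.ext (by omega)
    simpa using this
  have hDc : D.card ≤ n + 1 := by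
    have : D.card ≤ (range (n + 1)).card := by
      refine Finset.card_le_card_of_injOn (fun v => (v : ℕ)) ?_ ?_
      · intro v hv
        have hv' : (v : ℕ) ≤ n := by simpa [hD] using hv
        simp only [coe_range, Set.mem_Iio]
        omega
      · intro v hv w hw hvw
        exact Fin.ext hvw
    simpa using this
  rcases hA R with hφ | hφ
  · obtain ⟨φ⟩ := hφ
    have hinj : Function.Injective (fun x => φ x) := φ.injective
    have hadj : ∀ (i : Fin 3) (a : Fin (s i)),
        Red n ((φ ⟨i, none⟩ : Fin _) : ℕ) ((φ ⟨i, some a⟩ : Fin _) : ℕ) := by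
      intro i a
      exact φ.toHom.map_adj (starForest_adj 3 s i _)
    have hup : ∀ i : Fin 3, 2 ≤ s i → ∃ b : Option (Fin (s i)), n < ((φ ⟨i, b⟩ : Fin _) : ℕ) := by
      intro i hi
      by_contra hno
      push Not at hno
      have a0 := hadj i ⟨0, by omega⟩
      have a1 := hadj i ⟨1, by omega⟩
      have b0 := hno none
      have b1 := hno (some ⟨0, by omega⟩)
      have b2 := hno (some ⟨1, by omega⟩)
      have hne : ((φ ⟨i, some ⟨0, by omega⟩⟩ : Fin _) : ℕ) ≠ ((φ ⟨i, some ⟨1, by omega⟩⟩ : Fin _) : ℕ) := by
        intro h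
        have := hinj (Fin.ext h)
        simp at this
      rcases a0 with h | h | h
      · omega
      · omega
      rcases a1 with h' | h' | h'
      · omega
      · omega
      obtain ⟨p1, p2, p3, p4⟩ := h
      obtain ⟨q1, q2, q3, q4⟩ := h'
      omega
    have hlo : ∀ i : Fin 3, 2 ≤ s i → ∃ b : Option (Fin (s i)), ((φ ⟨i, b⟩ : Fin _) : ℕ) ≤ n := by
      intro i hi
      by_contra hno
      push Not at hno
      have a0 := hadj i ⟨0, by omega⟩
      have b0 := hno none
      have b1 := hno (some ⟨0, by omega⟩)
      rcases a0 with h | h | h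
      · omega
      · omega
      · omega
    set L : Finset (Fin (2 * n + 1)) := univ.image (fun a : Fin (s i0) => φ ⟨i0, some a⟩) with hL
    have hLc : L.card = n := by
      have hli : Function.Injective (fun a : Fin (s i0) => (φ ⟨i0, some a⟩ : Fin (2 * n + 1))) := by
        intro a b hab
        have := hinj hab
        simpa using this
      rw [hL, card_image_of_injective _ hli, card_univ, Fintype.card_fin]
      exact hi0
    have hLi : ∀ (i : Fin 3) (b : Option (Fin (s i))), i ≠ i0 → (φ ⟨i, b⟩ : Fin _) ∉ L := by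
      intro i b hi hmem
      rw [hL, mem_image] at hmem
      obtain ⟨a, _, ha⟩ := hmem
      have := hinj ha
      exact hi (congrArg Sigma.fst this).symm
    have h12 : ∀ (b : Option (Fin (s i1))) (c : Option (Fin (s i2))),
        (φ ⟨i1, b⟩ : Fin _) ≠ φ ⟨i2, c⟩ := by
      intro b c hbc
      have := hinj hbc
      have h : i1 = i2 := congrArg Sigma.fst this
      exact absurd h (by decide)
    rcases le_or_gt ((φ ⟨i0, none⟩ : Fin _) : ℕ) n with hc | hc
    · obtain ⟨b1, hb1⟩ := hup i1 hi1
      obtain ⟨b2, hb2⟩ := hup i2 hi2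
      have hlow : (L.filter (fun v : Fin (2 * n + 1) => (v : ℕ) ≤ n)).card ≤ 1 := by
        rw [card_le_one]
        intro x hx y hy
        rw [mem_filter, hL, mem_image] at hx hy
        obtain ⟨⟨a, _, ha⟩, hxn⟩ := hx
        obtain ⟨⟨b, _, hb⟩, hyn⟩ := hy
        have r1 := hadj i0 a
        have r2 := hadj i0 b
        rw [ha] at r1
        rw [hb] at r2
        apply Fin.ext
        rcases r1 with h | h | h
        · omega
        · omega
        rcases r2 with h' | h' | h'
        · omega
        · omega
        obtain ⟨p1, p2, p3, p4⟩ := h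
        obtain ⟨q1, q2, q3, q4⟩ := h'
        omega
      have hcov : L ⊆ L.filter (fun v : Fin (2 * n + 1) => (v : ℕ) ≤ n) ∪ L.filter (fun v : Fin (2 * n + 1) => n < (v : ℕ)) := by
        intro x hx
        rw [mem_union, mem_filter, mem_filter]
        rcases le_or_gt (x : ℕ) n with h | h
        · exact Or.inl ⟨hx, h⟩
        · exact Or.inr ⟨hx, h⟩
      have hcc := (card_le_card hcov).trans (card_union_le _ _)
      have hsub : insert (φ ⟨i1, b1⟩ : Fin _) (insert (φ ⟨i2, b2⟩ : Fin _)
          (L.filter (fun v : Fin (2 * n + 1) => n < (v : ℕ)))) ⊆ U := by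
        intro x hx
        rw [mem_insert, mem_insert, mem_filter] at hx
        rw [hU, mem_filter]
        refine ⟨mem_univ _, ?_⟩
        rcases hx with rfl | rfl | hx
        · exact hb1
        · exact hb2
        · exact hx.2
      have hc3 := card_le_card hsub
      rw [card_insert_of_notMem, card_insert_of_notMem] at hc3
      · omega
      · intro h
        rw [mem_filter] at h
        exact hLi i2 b2 (by decide) h.1
      · intro h
        rw [mem_insert, mem_filter] at h
        rcases h with h | h
        · exact h12 b1 b2 h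
        · exact hLi i1 b1 (by decide) h.1
    · obtain ⟨b1, hb1⟩ := hlo i1 hi1
      obtain ⟨b2, hb2⟩ := hlo i2 hi2
      have hsub : insert (φ ⟨i1, b1⟩ : Fin _) (insert (φ ⟨i2, b2⟩ : Fin _) L) ⊆ D := by
        intro x hx
        rw [mem_insert, mem_insert] at hx
        rw [hD, mem_filter]
        refine ⟨mem_univ _, ?_⟩
        rcases hx with rfl | rfl | hx
        · exact hb1
        · exact hb2
        · rw [hL, mem_image] at hx
          obtain ⟨a, _, rfl⟩ := hx
          rcases hadj i0 a with h | h | h
          · omega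
          · exact h.1
          · omega
      have hc3 := card_le_card hsub
      rw [card_insert_of_notMem, card_insert_of_notMem] at hc3
      · omega
      · exact hLi i2 b2 (by decide)
      · intro h
        rw [mem_insert] at h
        rcases h with h | h
        · exact h12 b1 b2 h
        · exact hLi i1 b1 (by decide) h
  · obtain ⟨φ⟩ := hφ
    have hinj : Function.Injective (fun x => φ x) := φ.injective
    have hadj : ∀ (a : Fin (s i0)), (φ ⟨i0, none⟩ : Fin _) ≠ φ ⟨i0, some a⟩ ∧
        ¬ Red n ((φ ⟨i0, none⟩ : Fin _) : ℕ) ((φ ⟨i0, some a⟩ : Fin _) : ℕ) := by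
      intro a
      have h1 : Rᶜ.Adj (φ ⟨i0, none⟩) (φ ⟨i0, some a⟩) :=
        φ.toHom.map_adj (starForest_adj 3 s i0 _)
      rw [SimpleGraph.compl_adj] at h1
      exact h1
    set L : Finset (Fin (2 * n + 1)) := univ.image (fun a : Fin (s i0) => φ ⟨i0, some a⟩) with hL
    have hLc : L.card = n := by
      have hli : Function.Injective (fun a : Fin (s i0) => (φ ⟨i0, some a⟩ : Fin (2 * n + 1))) := by
        intro a b hab
        have := hinj hab
        simpa using this
      rw [hL, card_image_of_injective _ hli, card_univ, Fintype.card_fin]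
      exact hi0
    have hcL : (φ ⟨i0, none⟩ : Fin _) ∉ L := by
      intro hmem
      rw [hL, mem_image] at hmem
      obtain ⟨a, _, ha⟩ := hmem
      exact (hadj a).1 ha.symm
    rcases le_or_gt ((φ ⟨i0, none⟩ : Fin _) : ℕ) n with hc | hc
    · obtain ⟨p, hp1, hp2, hp3⟩ : ∃ p : Fin (2 * n + 1), ((φ ⟨i0, none⟩ : Fin _) : ℕ) ≠ (p : ℕ) ∧
          (p : ℕ) ≤ n ∧ ((φ ⟨i0, none⟩ : Fin _) : ℕ) / 2 = (p : ℕ) / 2 := by
        by_cases hev : ((φ ⟨i0, none⟩ : Fin _) : ℕ) % 2 = 0
        · exact ⟨⟨((φ ⟨i0, none⟩ : Fin _) : ℕ) + 1, by omega⟩, by simp, by simp; omega,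
            by simp; omega⟩
        · exact ⟨⟨((φ ⟨i0, none⟩ : Fin _) : ℕ) - 1, by omega⟩, by simp; omega, by simp; omega,
            by simp; omega⟩
      have hsub : insert p (insert (φ ⟨i0, none⟩ : Fin _) L) ⊆ D := by
        intro x hx
        rw [mem_insert, mem_insert] at hx
        rw [hD, mem_filter]
        refine ⟨mem_univ _, ?_⟩
        rcases hx with rfl | rfl | hx
        · exact hp2
        · exact hc
        · rw [hL, mem_image] at hx
          obtain ⟨a, _, rfl⟩ := hx
          by_contra hgt
          push Not at hgt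
          exact (hadj a).2 (Or.inl ⟨hc, hgt⟩)
      have hc3 := card_le_card hsub
      rw [card_insert_of_notMem, card_insert_of_notMem hcL] at hc3
      · omega
      · intro h
        rw [mem_insert] at h
        rcases h with h | h
        · exact hp1 (by rw [h])
        · rw [hL, mem_image] at h
          obtain ⟨a, _, ha⟩ := h
          exact (hadj a).2 (Or.inr (Or.inr (by rw [ha]; exact ⟨hp1, hc, hp2, hp3⟩)))
    · have hsub : insert (φ ⟨i0, none⟩ : Fin _) L ⊆ U := by
        intro x hx
        rw [mem_insert] at hx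
        rw [hU, mem_filter]
        refine ⟨mem_univ _, ?_⟩
        rcases hx with rfl | hx
        · exact hc
        · rw [hL, mem_image] at hx
          obtain ⟨a, _, rfl⟩ := hx
          by_contra hle
          push Not at hle
          exact (hadj a).2 (Or.inr (Or.inl ⟨hle, hc⟩))
      have hc3 := card_le_card hsub
      rw [card_insert_of_notMem hcL] at hc3
      omega

end H2.SF
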